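import Pool.Agent.H4.NB.Wn
import Pool.Agent.H74.NB.CC

/-!
# NB Cnt: counting zeros of holomorphic functions

`Zer f O S k`: `f` has at least `k` zeros (with multiplicities) in `S`; `O` is the domain of `f`.
-/

set_option autoImplicit false

open Topology Filter Metric Complex

noncomputable section

namespace Pool.Agent.H4.NB

/-- the polynomial with the roots `s` -/
def mp (s : Multiset ℂ) (z : ℂ) : ℂ := (s.map (fun a => z - a)).prod

@[simp] theorem mp_zero (z : ℂ) : mp 0 z = 1 := by simp [mp]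

@[simp] theorem mp_cons (a : ℂ) (s : Multiset ℂ) (z : ℂ) : mp (a ::ₘ s) z = (z - a) * mp s z := by simp [mp]

theorem mp_add (s t : Multiset ℂ) (z : ℂ) : mp (s + t) z = mp s z * mp t z := by simp [mp]

theorem mp_eq_zero {s : Multiset ℂ} {z : ℂ} : mp s z = 0 ↔ z ∈ s := by
  unfold mp
  rw [Multiset.prod_eq_zero_iff, Multiset.mem_map]
  constructor
  · rintro ⟨a, ha, h⟩
    rw [sub_eq_zero] at h
    exact h ▸ ha
  · intro h
    exact ⟨z, h, sub_self z⟩

theorem mp_replicate (k : ℕ) (a z : ℂ) : mp (Multiset.replicate k a) z = (z - a) ^ k := by simp [mp]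

theorem diff_mp (s : Multiset ℂ) : Differentiable ℂ (mp s) := by
  induction s using Multiset.induction_on with
  | empty =>
    have : mp 0 = fun _ => (1 : ℂ) := funext fun z => mp_zero z
    rw [this]
    exact differentiable_const 1
  | cons a s ih =>
    have : mp (a ::ₘ s) = fun z => (z - a) * mp s z := funext fun z => mp_cons a s z
    rw [this]
    exact (differentiable_id.sub_const a).mul ih

/-- at least `k` zeros in `S` -/
def Zer (f : ℂ → ℂ) (O S : Set ℂ) (k : ℕ) : Prop :=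
  ∃ s : Multiset ℂ, s.card = k ∧ (∀ a ∈ s, a ∈ S) ∧ ∃ g : ℂ → ℂ, DifferentiableOn ℂ g O ∧ ∀ z ∈ O, f z = mp s z * g z

variable {f g : ℂ → ℂ} {O S S' : Set ℂ} {k l : ℕ}

theorem Zer.zero (hf : DifferentiableOn ℂ f O) : Zer f O S 0 := ⟨0, rfl, by simp, f, hf, by simp⟩

theorem Zer.mono (h : Zer f O S k) (hS : S ⊆ S') : Zer f O S' k := by
  obtain ⟨s, h1, h2, h3⟩ := h
  exact ⟨s, h1, fun a ha => hS (h2 a ha), h3⟩

theorem Zer.mono_dom (h : Zer f O S k) {O' : Set ℂ} (hO : O' ⊆ O) : Zer f O' S k := by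
  obtain ⟨s, h1, h2, g, h3, h4⟩ := h
  exact ⟨s, h1, h2, g, h3.mono hO, fun z hz => h4 z (hO hz)⟩

theorem Zer.congr (h : Zer f O S k) (he : ∀ z ∈ O, g z = f z) : Zer g O S k := by
  obtain ⟨s, h1, h2, g', h3, h4⟩ := h
  exact ⟨s, h1, h2, g', h3, fun z hz => (he z hz).trans (h4 z hz)⟩

theorem Zer.diff (h : Zer f O S k) : DifferentiableOn ℂ f O := by
  obtain ⟨s, h1, h2, g, h3, h4⟩ := h
  exact ((diff_mp s).differentiableOn.mul h3).congr h4

theorem Zer.succ (h : Zer f O S (k + 1)) : Zer f O S k := by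
  obtain ⟨s, h1, h2, g, h3, h4⟩ := h
  obtain ⟨a, s', rfl⟩ := Multiset.card_pos_iff_exists_mem.mp (show 0 < s.card by omega) |>.imp fun a ha => Multiset.exists_cons_of_mem ha
  refine ⟨s', by simpa using h1, fun x hx => h2 x (Multiset.mem_cons_of_mem hx), fun z => (z - a) * g z,
    ((differentiable_id.sub_const a).differentiableOn).mul h3, fun z hz => ?_⟩
  rw [h4 z hz, mp_cons]
  ring

theorem Zer.le (h : Zer f O S k) (hk : l ≤ k) : Zer f O S l := by
  induction k with
  | zero =>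
    obtain rfl : l = 0 := by omega
    exact h
  | succ k ih =>
    rcases Nat.lt_or_ge l (k + 1) with h1 | h1
    · exact ih h.succ (by omega)
    · obtain rfl : l = k + 1 := by omega
      exact h

theorem Zer.mul_right (h : Zer f O S k) (hg : DifferentiableOn ℂ g O) : Zer (fun z => f z * g z) O S k := by
  obtain ⟨s, h1, h2, g', h3, h4⟩ := h
  exact ⟨s, h1, h2, fun z => g' z * g z, h3.mul hg, fun z hz => by simp only [h4 z hz]; ring⟩

theorem Zer.mul (h : Zer f O S k) (h' : Zer g O S l) : Zer (fun z => f z * g z) O S (k + l) := by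
  obtain ⟨s, h1, h2, g', h3, h4⟩ := h
  obtain ⟨t, i1, i2, g'', i3, i4⟩ := h'
  refine ⟨s + t, by simp [h1, i1], fun a ha => ?_, fun z => g' z * g'' z, h3.mul i3, fun z hz => ?_⟩
  · rcases Multiset.mem_add.mp ha with ha | ha
    · exact h2 a ha
    · exact i2 a ha
  · simp only [h4 z hz, i4 z hz, mp_add]
    ring

/-- division by `z - a` on an open set -/
theorem div_on (hO : IsOpen O) (hf : DifferentiableOn ℂ f O) {a : ℂ} (ha : a ∈ O) (h0 : f a = 0) :
    ∃ g : ℂ → ℂ, DifferentiableOn ℂ g O ∧ ∀ z, f z = (z - a) * g z := by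
  refine ⟨dslope f a, (Complex.differentiableOn_dslope (hO.mem_nhds ha)).mpr hf, fun z => ?_⟩
  have h2 := sub_smul_dslope f a z
  rw [h0, sub_zero, smul_eq_mul] at h2
  exact h2.symm

/-- cancellation of `z - a` -/
theorem cancel_on (hO : IsOpen O) (hf : ContinuousOn f O) (hg : ContinuousOn g O) {a : ℂ}
    (h : ∀ z ∈ O, (z - a) * f z = (z - a) * g z) : ∀ z ∈ O, f z = g z := by
  have h1 : ∀ z ∈ O, z ≠ a → f z = g z := fun z hz hza => mul_left_cancel₀ (sub_ne_zero.mpr hza) (h z hz)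
  intro z hz
  by_cases hza : z = a
  · subst hza
    have h2 : Tendsto f (𝓝[≠] z) (𝓝 (f z)) := ((hf z hz).continuousAt (hO.mem_nhds hz)).tendsto.mono_left nhdsWithin_le_nhds
    have h3 : Tendsto g (𝓝[≠] z) (𝓝 (g z)) := ((hg z hz).continuousAt (hO.mem_nhds hz)).tendsto.mono_left nhdsWithin_le_nhds
    refine tendsto_nhds_unique h2 (h3.congr' ?_)
    filter_upwards [eventually_mem_nhdsWithin, nhdsWithin_le_nhds (hO.mem_nhds hz)] with y h4 h5
    exact (h1 y h5 h4).symm
  · exact h1 z hz hza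

/-- coprime divisors -/
private lemma dvd_aux (hO : IsOpen O) {t : Multiset ℂ} : ∀ (s : Multiset ℂ) (g₁ g₂ : ℂ → ℂ), (∀ a ∈ s, a ∈ O) → (∀ a ∈ s, a ∉ t) →
    DifferentiableOn ℂ g₁ O → DifferentiableOn ℂ g₂ O → (∀ z ∈ O, mp s z * g₁ z = mp t z * g₂ z) →
    ∃ g : ℂ → ℂ, DifferentiableOn ℂ g O ∧ ∀ z ∈ O, g₁ z = mp t z * g z := by
  intro s
  induction s using Multiset.induction_on with
  | empty =>
    intro g₁ g₂ _ _ _ h2 h
    exact ⟨g₂, h2, fun z hz => by simpa using h z hz⟩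
  | cons a s ih =>
    intro g₁ g₂ hs hst h1 h2 h
    have haO : a ∈ O := hs a (Multiset.mem_cons_self a s)
    have hat : mp t a ≠ 0 := fun h3 => hst a (Multiset.mem_cons_self a s) (mp_eq_zero.mp h3)
    have h3 : g₂ a = 0 := by
      have h4 := h a haO
      rw [mp_cons, sub_self, zero_mul, zero_mul] at h4
      exact (mul_eq_zero.mp h4.symm).resolve_left hat
    obtain ⟨g₃, h5, h6⟩ := div_on hO h2 haO h3
    refine ih g₁ g₃ (fun x hx => hs x (Multiset.mem_cons_of_mem hx)) (fun x hx => hst x (Multiset.mem_cons_of_mem hx)) h1 h5 ?_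
    refine cancel_on hO (a := a) (((diff_mp s).continuous.continuousOn).mul h1.continuousOn)
      (((diff_mp t).continuous.continuousOn).mul h5.continuousOn) fun z hz => ?_
    have h7 := h z hz
    rw [mp_cons, h6 z] at h7
    linear_combination h7

theorem Zer.add (hO : IsOpen O) (hSO : S ⊆ O) (hd : Disjoint S S') (h : Zer f O S k) (h' : Zer f O S' l) :
    Zer f O (S ∪ S') (k + l) := by
  obtain ⟨s, h1, h2, g₁, h3, h4⟩ := h
  obtain ⟨t, i1, i2, g₂, i3, i4⟩ := h'
  obtain ⟨g, j1, j2⟩ := dvd_aux hO (t := t) s g₁ g₂ (fun a ha => hSO (h2 a ha))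
    (fun a ha hat => Set.disjoint_left.mp hd (h2 a ha) (i2 a hat)) h3 i3 (fun z hz => (h4 z hz).symm.trans (i4 z hz))
  refine ⟨s + t, by simp [h1, i1], fun a ha => ?_, g, j1, fun z hz => ?_⟩
  · rcases Multiset.mem_add.mp ha with ha | ha
    · exact Or.inl (h2 a ha)
    · exact Or.inr (i2 a ha)
  · rw [h4 z hz, j2 z hz, mp_add]
    ring

theorem Zer.sum {ι : Type*} (hO : IsOpen O) (hf : DifferentiableOn ℂ f O) (J : Finset ι) {T : ι → Set ℂ} {m : ι → ℕ}
    (hTO : ∀ j ∈ J, T j ⊆ O) (hd : ∀ i ∈ J, ∀ j ∈ J, i ≠ j → Disjoint (T i) (T j)) (h : ∀ j ∈ J, Zer f O (T j) (m j)) :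
    Zer f O (⋃ j ∈ J, T j) (∑ j ∈ J, m j) := by
  classical
  induction J using Finset.induction_on with
  | empty => simpa using Zer.zero hf
  | insert a J ha ih =>
    have h1 := ih (fun j hj => hTO j (Finset.mem_insert_of_mem hj))
      (fun i hi j hj => hd i (Finset.mem_insert_of_mem hi) j (Finset.mem_insert_of_mem hj))
      (fun j hj => h j (Finset.mem_insert_of_mem hj))
    rw [Finset.sum_insert ha]
    refine (Zer.add hO (hTO a (Finset.mem_insert_self a J)) ?_ (h a (Finset.mem_insert_self a J)) h1).mono ?_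
    · rw [Set.disjoint_iUnion₂_right]
      intro j hj
      exact hd a (Finset.mem_insert_self a J) j (Finset.mem_insert_of_mem hj) (fun hh => ha (hh ▸ hj))
    · intro x hx
      rcases hx with hx | hx
      · exact Set.mem_biUnion (Finset.mem_insert_self a J) hx
      · obtain ⟨j, hj, hxj⟩ := Set.mem_iUnion₂.mp hx
        exact Set.mem_biUnion (Finset.mem_insert_of_mem hj) hxj

/-- a larger domain -/
theorem Zer.extend {O' : Set ℂ} (hO : IsOpen O) (hO' : IsOpen O') (hOO : O ⊆ O') (hSO : S ⊆ O) (hf : DifferentiableOn ℂ f O')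
    (h : Zer f O S k) : Zer f O' S k := by
  obtain ⟨s, h1, h2, g, h3, h4⟩ := h
  have key : ∀ (s : Multiset ℂ) (f : ℂ → ℂ), (∀ a ∈ s, a ∈ S) → DifferentiableOn ℂ f O' → (∀ z ∈ O, f z = mp s z * g z) →
      ∃ g' : ℂ → ℂ, DifferentiableOn ℂ g' O' ∧ ∀ z ∈ O', f z = mp s z * g' z := by
    intro s
    induction s using Multiset.induction_on with
    | empty => exact fun f _ hf _ => ⟨f, hf, by simp⟩
    | cons a s ih =>
      intro f hs hf hfg
      have haO : a ∈ O := hSO (hs a (Multiset.mem_cons_self a s))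
      have h0 : f a = 0 := by rw [hfg a haO, mp_cons, sub_self, zero_mul, zero_mul]
      obtain ⟨f', i1, i2⟩ := div_on hO' hf (hOO haO) h0
      have i3 : ∀ z ∈ O, f' z = mp s z * g z := by
        refine cancel_on hO (a := a) (i1.continuousOn.mono hOO) (((diff_mp s).continuous.continuousOn).mul h3.continuousOn) fun z hz => ?_
        rw [← i2 z, hfg z hz, mp_cons]
        ring
      obtain ⟨g', j1, j2⟩ := ih f' (fun x hx => hs x (Multiset.mem_cons_of_mem hx)) i1 i3
      refine ⟨g', j1, fun z hz => ?_⟩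
      rw [i2 z, j2 z hz, mp_cons]
      ring
  obtain ⟨g', j1, j2⟩ := key s f h2 hf h4
  exact ⟨s, h1, h2, g', j1, j2⟩

/-- a change of the variable -/
theorem Zer.scale {b ρ : ℂ} (hρ : ρ ≠ 0) (h : Zer (fun u => f (b + ρ * u)) {u | b + ρ * u ∈ O} S k) :
    Zer f O ((fun u => b + ρ * u) '' S) k := by
  obtain ⟨s, h1, h2, g, h3, h4⟩ := h
  have hmp : ∀ (s : Multiset ℂ) (u : ℂ), mp (s.map fun a => b + ρ * a) (b + ρ * u) = ρ ^ s.card * mp s u := by
    intro s u
    induction s using Multiset.induction_on with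
    | empty => simp
    | cons a s ih =>
      rw [Multiset.map_cons, mp_cons, ih, mp_cons, Multiset.card_cons, pow_succ]
      ring
  refine ⟨s.map fun a => b + ρ * a, by simpa using h1, fun a ha => ?_, fun z => (ρ ^ s.card)⁻¹ * g ((z - b) / ρ), ?_, fun z hz => ?_⟩
  · obtain ⟨a', ha', rfl⟩ := Multiset.mem_map.mp ha
    exact ⟨a', h2 a' ha', rfl⟩
  · refine DifferentiableOn.const_mul (h3.comp (by fun_prop) fun z hz => ?_) _
    change b + ρ * ((z - b) / ρ) ∈ O
    rw [mul_div_cancel₀ _ hρ, add_sub_cancel]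
    exact hz
  · have hz' : b + ρ * ((z - b) / ρ) = z := by rw [mul_div_cancel₀ _ hρ, add_sub_cancel]
    have h5 := h4 ((z - b) / ρ) (by change b + ρ * ((z - b) / ρ) ∈ O; rwa [hz'])
    simp only [hz'] at h5
    have h6 := hmp s ((z - b) / ρ)
    rw [hz'] at h6
    rw [h5, h6]
    have : ρ ^ s.card ≠ 0 := pow_ne_zero _ hρ
    field_simp

theorem Zer.of_eq_pow {a : ℂ} (ha : a ∈ S) (hg : DifferentiableOn ℂ g O) (h : ∀ z ∈ O, f z = (z - a) ^ k * g z) : Zer f O S k :=
  ⟨Multiset.replicate k a, by simp, fun x hx => by rw [Multiset.eq_of_mem_replicate hx]; exact ha, g, hg,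
    fun z hz => by rw [mp_replicate]; exact h z hz⟩

/-! ## the exact number of zeros -/

private lemma mp_count (s : Multiset ℂ) (a z : ℂ) : mp s z = (z - a) ^ (s.count a) * mp (s.filter (· ≠ a)) z := by
  classical
  conv_lhs => rw [← Multiset.filter_add_not (fun b => b = a) s]
  rw [mp_add, Multiset.filter_eq', mp_replicate]

/-- the zeros of a holomorphic function in a smaller disc -/
theorem exists_dec_on {w : ℂ} {r R : ℝ} (hrR : r < R) (hf : DifferentiableOn ℂ f (ball w R)) (h0 : ∃ z ∈ ball w R, f z ≠ 0) :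
    ∃ (s : Multiset ℂ) (e : ℂ → ℂ), DifferentiableOn ℂ e (ball w R) ∧ (∀ z ∈ closedBall w r, e z ≠ 0) ∧ (∀ a ∈ s, a ∈ closedBall w r) ∧
      ∀ z ∈ ball w R, f z = mp s z * e z := by
  classical
  have hsub : closedBall w r ⊆ ball w R := closedBall_subset_ball hrR
  have han : AnalyticOnNhd ℂ f (ball w R) := hf.analyticOnNhd isOpen_ball
  have htop : ∀ z ∈ ball w R, analyticOrderAt f z ≠ ⊤ := by
    intro z hz h
    rw [analyticOrderAt_eq_top] at h
    obtain ⟨y, hy, hy0⟩ := h0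
    exact hy0 (han.eqOn_zero_of_preconnected_of_eventuallyEq_zero (convex_ball w R).isPreconnected hz h hy)
  have hfin : {z | z ∈ closedBall w r ∧ f z = 0}.Finite := by
    by_contra hinf
    obtain ⟨a, ha, hacc⟩ := (Set.not_finite.mp hinf).exists_accPt_of_subset_isCompact (isCompact_closedBall w r) fun z hz => hz.1
    have h1 : ∃ᶠ z in 𝓝[≠] a, f z = 0 := (accPt_iff_frequently_nhdsNE.mp hacc).mono fun z hz => hz.2
    have h2 := (han a (hsub ha)).frequently_zero_iff_eventually_zero.mp h1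
    exact htop a (hsub ha) (analyticOrderAt_eq_top.mpr h2)
  have hbound : ∀ (s : Multiset ℂ) (g : ℂ → ℂ), DifferentiableOn ℂ g (ball w R) → (∀ a ∈ s, a ∈ closedBall w r) →
      (∀ z ∈ ball w R, f z = mp s z * g z) → s.card ≤ ∑ a ∈ hfin.toFinset, analyticOrderNatAt f a := by
    intro s g hg hs hfg
    have h1 : s.toFinset ⊆ hfin.toFinset := by
      intro a ha
      rw [Multiset.mem_toFinset] at ha
      rw [Set.Finite.mem_toFinset]
      exact ⟨hs a ha, by rw [hfg a (hsub (hs a ha)), mp_eq_zero.mpr ha, zero_mul]⟩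
    have h2 : ∀ a ∈ s.toFinset, s.count a ≤ analyticOrderNatAt f a := by
      intro a ha
      rw [Multiset.mem_toFinset] at ha
      have haR := hsub (hs a ha)
      have h3 : ((s.count a : ℕ) : ℕ∞) ≤ analyticOrderAt f a := by
        rw [natCast_le_analyticOrderAt (han a haR)]
        refine ⟨fun z => mp (s.filter (· ≠ a)) z * g z, ?_, ?_⟩
        · exact ((diff_mp _).analyticAt a).mul (hg.analyticAt (isOpen_ball.mem_nhds haR))
        · filter_upwards [isOpen_ball.mem_nhds haR] with z hz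
          rw [hfg z hz, mp_count s a z, smul_eq_mul, mul_assoc]
      rw [← Nat.cast_analyticOrderNatAt (htop a haR)] at h3
      exact_mod_cast h3
    calc s.card = ∑ a ∈ s.toFinset, s.count a := (Multiset.toFinset_sum_count_eq s).symm
      _ ≤ ∑ a ∈ s.toFinset, analyticOrderNatAt f a := Finset.sum_le_sum h2
      _ ≤ ∑ a ∈ hfin.toFinset, analyticOrderNatAt f a := Finset.sum_le_sum_of_subset h1
  by_contra hno
  push Not at hno
  have key : ∀ k : ℕ, ∃ (s : Multiset ℂ) (e : ℂ → ℂ), s.card = k ∧ DifferentiableOn ℂ e (ball w R) ∧ (∀ a ∈ s, a ∈ closedBall w r) ∧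
      ∀ z ∈ ball w R, f z = mp s z * e z := by
    intro k
    induction k with
    | zero => exact ⟨0, f, rfl, hf, by simp, by simp⟩
    | succ k ih =>
      obtain ⟨s, e, h1, h2, h3, h4⟩ := ih
      have h5 : ∃ a ∈ closedBall w r, e a = 0 := by
        by_contra h6
        push Not at h6
        obtain ⟨z, hz, hzne⟩ := hno s e h2 h6 h3
        exact hzne (h4 z hz)
      obtain ⟨a, ha, ha0⟩ := h5
      obtain ⟨g, hg, hge⟩ := div_on isOpen_ball h2 (hsub ha) ha0
      refine ⟨a ::ₘ s, g, by simp [h1], hg, ?_, ?_⟩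
      · intro x hx
        rcases Multiset.mem_cons.mp hx with rfl | hx
        · exact ha
        · exact h3 x hx
      · intro z hz
        rw [h4 z hz, hge z, mp_cons]
        ring
  obtain ⟨s, e, h1, h2, h3, h4⟩ := key (∑ a ∈ hfin.toFinset, analyticOrderNatAt f a + 1)
  have := hbound s e h2 h3 h4
  omega

theorem wn_congr {c : ℂ} {r : ℝ} (hr : 0 < r) (hO : IsOpen O) (hsO : sphere c r ⊆ O) (h : ∀ z ∈ O, f z = g z) : wn f c r = wn g c r := by
  unfold wn
  congr 1
  refine circleIntegral.integral_congr hr.le fun z hz => ?_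
  have h1 : f =ᶠ[𝓝 z] g := by
    filter_upwards [hO.mem_nhds (hsO hz)] with y hy
    exact h y hy
  simp only [h1.deriv_eq, h1.eq_of_nhds]

theorem wn_mp_mul {c : ℂ} {t : ℝ} (ht : 0 < t) (hO : IsOpen O) (hcO : closedBall c t ⊆ O) {s : Multiset ℂ} {e : ℂ → ℂ}
    (he : DifferentiableOn ℂ e O) (hf : ∀ z ∈ O, f z = mp s z * e z) (h0 : ∀ z ∈ sphere c t, f z ≠ 0) :
    wn f c t = ((s.filter (fun a => ‖a - c‖ < t)).card : ℂ) + wn e c t := by
  have hsO : sphere c t ⊆ O := sphere_subset_closedBall.trans hcO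
  have h1 : ∀ z ∈ sphere c t, mp s z ≠ 0 ∧ e z ≠ 0 := by
    intro z hz
    have := h0 z hz
    rw [hf z (hsO hz)] at this
    exact ⟨left_ne_zero_of_mul this, right_ne_zero_of_mul this⟩
  rw [wn_congr ht hO hsO hf, wn_mul ht (fun z _ => (diff_mp s).analyticAt z)
    (fun z hz => (he.analyticOnNhd hO) z (hsO hz)) (fun z hz => (h1 z hz).1) (fun z hz => (h1 z hz).2)]
  congr 1
  exact wn_prod ht fun a ha hac => (h1 a hac).1 (mp_eq_zero.mpr ha)

/-- a closed disc in an open set has a neighbourhood which is a disc -/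
theorem exists_ball {c : ℂ} {t : ℝ} (ht : 0 < t) (hO : IsOpen O) (hcO : closedBall c t ⊆ O) : ∃ R, t < R ∧ ball c R ⊆ O := by
  obtain ⟨δ, hδ, hsub⟩ := (isCompact_closedBall c t).exists_thickening_subset_open hO hcO
  refine ⟨t + δ, by linarith, fun z hz => hsub ?_⟩
  rw [thickening_closedBall hδ ht.le]
  rwa [add_comm] at hz

theorem wn_nat_on {c : ℂ} {t : ℝ} (ht : 0 < t) (hO : IsOpen O) (hcO : closedBall c t ⊆ O) (hf : DifferentiableOn ℂ f O)
    (h0 : ∀ z ∈ sphere c t, f z ≠ 0) : ∃ k : ℕ, wn f c t = k := by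
  obtain ⟨R, hR, hsub⟩ := exists_ball ht hO hcO
  obtain ⟨s, e, h1, h2, h3, h4⟩ := exists_dec_on hR (hf.mono hsub)
    ⟨c + t, by simp [abs_of_pos ht, hR], h0 _ (by simp [abs_of_pos ht])⟩
  refine ⟨(s.filter (fun a => ‖a - c‖ < t)).card, ?_⟩
  rw [wn_mp_mul ht isOpen_ball (closedBall_subset_ball hR) h1 h4 h0, wn_of_ne ht (fun z hz => (h1.analyticOnNhd isOpen_ball) z (closedBall_subset_ball hR hz)) h2, add_zero]

theorem Zer.exists_wn {c : ℂ} {t : ℝ} (ht : 0 < t) (hO : IsOpen O) (hcO : closedBall c t ⊆ O) (h : Zer f O (ball c t) k)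
    (h0 : ∀ z ∈ sphere c t, f z ≠ 0) : ∃ j : ℕ, k ≤ j ∧ wn f c t = j := by
  obtain ⟨s, h1, h2, g, h3, h4⟩ := h
  have hsO : sphere c t ⊆ O := sphere_subset_closedBall.trans hcO
  have h5 : ∀ z ∈ sphere c t, g z ≠ 0 := by
    intro z hz
    have := h0 z hz
    rw [h4 z (hsO hz)] at this
    exact right_ne_zero_of_mul this
  obtain ⟨j, hj⟩ := wn_nat_on ht hO hcO h3 h5
  refine ⟨k + j, Nat.le_add_right k j, ?_⟩
  rw [wn_mp_mul ht hO hcO h3 h4 h0, hj, Multiset.filter_eq_self.mpr, h1]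
  · push_cast
    ring
  · intro a ha
    have := h2 a ha
    rwa [mem_ball_iff_norm] at this

theorem zer_of_wn {c : ℂ} {t : ℝ} (ht : 0 < t) (hO : IsOpen O) (hcO : closedBall c t ⊆ O) (hf : DifferentiableOn ℂ f O)
    (h0 : ∀ z ∈ sphere c t, f z ≠ 0) (hk : wn f c t = k) : Zer f O (ball c t) k := by
  obtain ⟨R, hR, hsub⟩ := exists_ball ht hO hcO
  obtain ⟨s, e, h1, h2, h3, h4⟩ := exists_dec_on hR (hf.mono hsub)
    ⟨c + t, by simp [abs_of_pos ht, hR], h0 _ (by simp [abs_of_pos ht])⟩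
  have h5 := wn_mp_mul ht isOpen_ball (closedBall_subset_ball hR) h1 h4 h0
  rw [wn_of_ne ht (fun z hz => (h1.analyticOnNhd isOpen_ball) z (closedBall_subset_ball hR hz)) h2, add_zero, hk] at h5
  have h6 : k = (s.filter (fun a => ‖a - c‖ < t)).card := by exact_mod_cast h5
  have h7 : Zer f (ball c R) (ball c t) k := by
    refine ⟨s.filter (fun a => ‖a - c‖ < t), h6.symm, fun a ha => ?_, fun z => mp (s.filter (fun a => ¬ ‖a - c‖ < t)) z * e z,
      (diff_mp _).differentiableOn.mul h1, fun z hz => ?_⟩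
    · rw [mem_ball_iff_norm]
      exact (Multiset.mem_filter.mp ha).2
    · rw [h4 z hz, ← mul_assoc, ← mp_add, Multiset.filter_add_not]
  exact h7.extend isOpen_ball hO hsub (ball_subset_ball hR.le) hf

/-- a circle without zeros -/
theorem exists_radius {a : ℂ} {R s₁ s₂ : ℝ} (h12 : s₁ < s₂) (h2R : s₂ ≤ R) (hf : DifferentiableOn ℂ f (ball a R))
    (h0 : ∃ z ∈ ball a R, f z ≠ 0) : ∃ t ∈ Set.Ioo s₁ s₂, ∀ z ∈ sphere a t, f z ≠ 0 := by
  classical
  obtain ⟨m, hm1, hm2⟩ := exists_between h12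
  obtain ⟨s, e, h1, h2, h3, h4⟩ := exists_dec_on (show m < R by linarith) hf h0
  have hinf : (Set.Ioo s₁ m).Infinite := Set.Ioo_infinite hm1
  obtain ⟨t, ht, htn⟩ := hinf.exists_notMem_finset ((s.map fun b => ‖b - a‖).toFinset)
  refine ⟨t, ⟨ht.1, ht.2.trans hm2⟩, fun z hz => ?_⟩
  rw [mem_sphere_iff_norm] at hz
  have hzm : z ∈ closedBall a m := by
    rw [mem_closedBall_iff_norm, hz]
    exact ht.2.le
  have hzR : z ∈ ball a R := closedBall_subset_ball (by linarith) hzm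
  rw [h4 z hzR]
  refine mul_ne_zero (fun h5 => htn ?_) (h2 z hzm)
  rw [Multiset.mem_toFinset, Multiset.mem_map]
  exact ⟨z, mp_eq_zero.mp h5, hz⟩

/-- a function close to one has winding number zero -/
theorem wn_near_one {c : ℂ} {t : ℝ} (ht : 0 < t) (hf : AnalyticOnNhd ℂ f (sphere c t)) (h : ∀ z ∈ sphere c t, ‖f z - 1‖ < 1) :
    wn f c t = 0 := by
  unfold wn
  rw [mul_eq_zero]
  right
  have h1 : ∀ z ∈ sphere c t, HasDerivWithinAt (fun z => Complex.log (f z)) (deriv f z / f z) (sphere c t) z := by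
    intro z hz
    have h2 : f z ∈ Complex.slitPlane := by
      left
      have h3 := h z hz
      have h4 := (Complex.abs_re_le_norm (f z - 1)).trans_lt h3
      rw [Complex.sub_re, Complex.one_re, abs_lt] at h4
      linarith
    exact ((hf z hz).differentiableAt.hasDerivAt.clog h2).hasDerivWithinAt
  exact circleIntegral.integral_eq_zero_of_hasDerivWithinAt ht.le h1

theorem wn_div {c : ℂ} {r : ℝ} (hr : 0 < r) (hf : AnalyticOnNhd ℂ f (sphere c r)) (hg : AnalyticOnNhd ℂ g (sphere c r))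
    (hf0 : ∀ z ∈ sphere c r, f z ≠ 0) (hg0 : ∀ z ∈ sphere c r, g z ≠ 0) : wn (fun z => f z / g z) c r = wn f c r - wn g c r := by
  have h1 : AnalyticOnNhd ℂ (fun z => f z / g z) (sphere c r) := fun z hz => (hf z hz).div (hg z hz) (hg0 z hz)
  have h2 := wn_mul hr h1 hg (fun z hz => div_ne_zero (hf0 z hz) (hg0 z hz)) hg0
  have h3 : wn (fun z => f z / g z * g z) c r = wn f c r := by
    unfold wn
    congr 1
    refine circleIntegral.integral_congr hr.le fun z hz => ?_
    have h4 : (fun z => f z / g z * g z) =ᶠ[𝓝 z] f := by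
      filter_upwards [(hg z hz).continuousAt.eventually_ne (hg0 z hz)] with y hy
      exact div_mul_cancel₀ _ hy
    simp only [h4.deriv_eq]
    congr 1
    exact div_mul_cancel₀ _ (hg0 z hz)
  rw [← h3, h2]
  ring

/-- functions which are close on the circle have the same winding number (Rouché) -/
theorem wn_rouche {c : ℂ} {r : ℝ} (hr : 0 < r) (hf : AnalyticOnNhd ℂ f (sphere c r)) (hg : AnalyticOnNhd ℂ g (sphere c r))
    (h : ∀ z ∈ sphere c r, ‖f z - g z‖ < ‖g z‖) : wn f c r = wn g c r := by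
  have hg0 : ∀ z ∈ sphere c r, g z ≠ 0 := fun z hz h0 => by
    have := h z hz
    rw [h0, norm_zero] at this
    exact absurd this (not_lt.mpr (norm_nonneg _))
  have hf0 : ∀ z ∈ sphere c r, f z ≠ 0 := fun z hz h0 => by
    have := h z hz
    rw [h0, zero_sub, norm_neg] at this
    exact lt_irrefl _ this
  have h1 := wn_div hr hf hg hf0 hg0
  have h2 : wn (fun z => f z / g z) c r = 0 := by
    refine wn_near_one hr (fun z hz => (hf z hz).div (hg z hz) (hg0 z hz)) fun z hz => ?_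
    have h3 : f z / g z - 1 = (f z - g z) / g z := by
      have := hg0 z hz
      field_simp
    rw [h3, norm_div, div_lt_one (norm_pos_iff.mpr (hg0 z hz))]
    exact h z hz
  rw [h2] at h1
  linear_combination -h1

/-- the ratio of two functions on an annulus gives the difference of the numbers of zeros -/
theorem Zer.ratio {a : ℂ} {R s₁ s₂ : ℝ} (h1 : 0 ≤ s₁) (h12 : s₁ < s₂) (h2R : s₂ ≤ R) {f₁ f₂ h r ρ : ℂ → ℂ} {m : ℕ}
    (hf₁ : DifferentiableOn ℂ f₁ (ball a R)) (hf₂ : DifferentiableOn ℂ f₂ (ball a R)) (h0 : ∃ z ∈ ball a R, f₂ z ≠ 0)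
    (hh : DifferentiableOn ℂ h {z | s₁ < ‖z - a‖ ∧ ‖z - a‖ < s₂}) (he : ∀ z, s₁ < ‖z - a‖ → ‖z - a‖ < s₂ → f₁ z = h z * f₂ z)
    (hρ : DifferentiableOn ℂ ρ (ball a s₂)) (hρ0 : ∀ z ∈ ball a s₂, ρ z ≠ 0) (hr : ∀ z ∈ ball a s₂, r z = (z - a) ^ m * ρ z)
    (hc : ∀ z, s₁ < ‖z - a‖ → ‖z - a‖ < s₂ → ‖h z - r z‖ < ‖r z‖) (hz : Zer f₂ (ball a R) (closedBall a s₁) k) :
    Zer f₁ (ball a R) (ball a s₂) (k + m) := by
  obtain ⟨t, ht, ht0⟩ := exists_radius h12 h2R hf₂ h0
  have htpos : 0 < t := lt_of_le_of_lt h1 ht.1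
  have htR : closedBall a t ⊆ ball a R := closedBall_subset_ball (ht.2.trans_le h2R)
  have hts : closedBall a t ⊆ ball a s₂ := closedBall_subset_ball ht.2
  have hA : IsOpen {z : ℂ | s₁ < ‖z - a‖ ∧ ‖z - a‖ < s₂} := by
    have hcont : Continuous fun z : ℂ => ‖z - a‖ := by fun_prop
    exact (isOpen_lt continuous_const hcont).inter (isOpen_lt hcont continuous_const)
  have hsA : sphere a t ⊆ {z : ℂ | s₁ < ‖z - a‖ ∧ ‖z - a‖ < s₂} := by
    intro z hz
    rw [mem_sphere_iff_norm] at hz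
    exact ⟨by rw [hz]; exact ht.1, by rw [hz]; exact ht.2⟩
  have hanh : AnalyticOnNhd ℂ h (sphere a t) := fun z hz => (hh.analyticOnNhd hA) z (hsA hz)
  have hanr : AnalyticOnNhd ℂ (fun z => (z - a) ^ m * ρ z) (sphere a t) := fun z hz => by
    have h5 : AnalyticAt ℂ ρ z := (hρ.analyticOnNhd isOpen_ball) z (hts (sphere_subset_closedBall hz))
    have h6 : AnalyticAt ℂ (fun z : ℂ => (z - a) ^ m) z := (show Differentiable ℂ fun z : ℂ => (z - a) ^ m by fun_prop).analyticAt z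
    exact h6.mul h5
  have hclose : ∀ z ∈ sphere a t, ‖h z - (z - a) ^ m * ρ z‖ < ‖(z - a) ^ m * ρ z‖ := by
    intro z hz
    rw [← hr z (hts (sphere_subset_closedBall hz))]
    exact hc z (hsA hz).1 (hsA hz).2
  have hh0 : ∀ z ∈ sphere a t, h z ≠ 0 := fun z hz h6 => by
    have := hclose z hz
    rw [h6, zero_sub, norm_neg] at this
    exact lt_irrefl _ this
  have hwr : wn (fun z => (z - a) ^ m * ρ z) a t = m := by
    have h5 : ∀ z ∈ sphere a t, (z - a) ^ m * ρ z ≠ 0 := fun z hz h6 => by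
      have := hclose z hz
      rw [h6, norm_zero] at this
      exact absurd this (not_lt.mpr (norm_nonneg _))
    have h6 := wn_mp_mul (f := fun z => (z - a) ^ m * ρ z) (s := Multiset.replicate m a) htpos isOpen_ball hts hρ
      (fun z _ => by rw [mp_replicate]) h5
    rw [h6, wn_of_ne htpos (fun z hz => (hρ.analyticOnNhd isOpen_ball) z (hts hz)) (fun z hz => hρ0 z (hts hz)), add_zero,
      Multiset.filter_eq_self.mpr]
    · simp
    · intro b hb
      rw [Multiset.eq_of_mem_replicate hb, sub_self, norm_zero]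
      exact htpos
  have hwh : wn h a t = m := by rw [wn_rouche htpos hanh hanr hclose, hwr]
  have hf₁0 : ∀ z ∈ sphere a t, f₁ z ≠ 0 := fun z hz => by
    rw [he z (hsA hz).1 (hsA hz).2]
    exact mul_ne_zero (hh0 z hz) (ht0 z hz)
  obtain ⟨j, hj1, hj2⟩ := (hz.mono (closedBall_subset_ball ht.1)).exists_wn htpos isOpen_ball htR ht0
  have hw : wn f₁ a t = ((m + j : ℕ) : ℂ) := by
    rw [wn_congr htpos hA hsA (fun z hz => he z hz.1 hz.2), wn_mul htpos hanh
      (fun z hz => (hf₂.analyticOnNhd isOpen_ball) z (htR (sphere_subset_closedBall hz))) hh0 ht0, hwh, hj2]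
    push_cast
    ring
  exact ((zer_of_wn htpos isOpen_ball htR hf₁ hf₁0 hw).le (by omega)).mono (ball_subset_ball ht.2.le)

/-- winding numbers on an annulus -/
theorem wn_annulus {c : ℂ} {r t : ℝ} (ht : 0 < t) (htr : t ≤ r) (hO : IsOpen O) (hAO : ∀ z, t ≤ ‖z - c‖ → ‖z - c‖ ≤ r → z ∈ O)
    (hf : DifferentiableOn ℂ f O) (h0 : ∀ z, t ≤ ‖z - c‖ → ‖z - c‖ ≤ r → f z ≠ 0) : wn f c r = wn f c t := by
  have han : AnalyticOnNhd ℂ f O := hf.analyticOnNhd hO
  have hcl : ∀ z ∈ closedBall c r \ ball c t, t ≤ ‖z - c‖ ∧ ‖z - c‖ ≤ r := by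
    intro z hz
    rw [Set.mem_diff, mem_closedBall_iff_norm, mem_ball_iff_norm, not_lt] at hz
    exact ⟨hz.2, hz.1⟩
  have h1 := Complex.circleIntegral_sub_center_inv_smul_eq_of_differentiable_on_annulus_off_countable (E := ℂ) (c := c) ht htr
    (f := fun z => (z - c) * (deriv f z / f z)) Set.countable_empty (by
      intro z hz
      obtain ⟨h2, h3⟩ := hcl z hz
      have h4 := han z (hAO z h2 h3)
      exact ((continuous_id.sub continuous_const).continuousAt.mul
        (h4.deriv.continuousAt.div h4.continuousAt (h0 z h2 h3))).continuousWithinAt) (by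
      intro z hz
      have hz' : z ∈ closedBall c r \ ball c t := ⟨ball_subset_closedBall hz.1.1, fun h => hz.1.2 (ball_subset_closedBall h)⟩
      obtain ⟨h2, h3⟩ := hcl z hz'
      have h4 := han z (hAO z h2 h3)
      exact (differentiableAt_id.sub_const c).mul (h4.deriv.differentiableAt.div h4.differentiableAt (h0 z h2 h3)))
  have h2 : ∀ {u : ℝ}, 0 < u → (∮ z in C(c, u), (z - c)⁻¹ • ((z - c) * (deriv f z / f z))) = ∮ z in C(c, u), deriv f z / f z := by
    intro u hu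
    refine circleIntegral.integral_congr hu.le fun z hz => ?_
    have h3 : z - c ≠ 0 := by
      intro h4
      rw [mem_sphere_iff_norm, h4, norm_zero] at hz
      exact hu.ne hz
    simp only [smul_eq_mul]
    field_simp
  unfold wn
  rw [← h2 (lt_of_lt_of_le ht htr), ← h2 ht, h1]

/-! ## convergence -/

variable {𝒰 : Ultrafilter ℕ} {F : ℕ → ℂ → ℂ}

open Pool.Agent.H74.NB (CC weier)

theorem tlu_of_cc {E : Type*} [NormedAddCommGroup E] [NormedSpace ℂ E] {F : ℕ → ℂ → E} {f : ℂ → E} (h : CC 𝒰 F f O) (hf : ContinuousOn f O) (hO : IsOpen O) :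
    TendstoLocallyUniformlyOn F f 𝒰 O := by
  rw [tendstoLocallyUniformlyOn_iff_forall_isCompact hO]
  intro K hKO hK
  rw [Metric.tendstoUniformlyOn_iff]
  intro ε hε
  filter_upwards [h.unif hf hO hK hKO hε] with n hn z hz
  rw [dist_comm, dist_eq_norm]
  exact hn z hz

/-- Hurwitz, lower bound -/
theorem zer_of_cc {w : ℂ} {r : ℝ} (hr : 0 < r) {κ : ℂ → ℂ} (hκ : DifferentiableOn ℂ κ (ball w r)) (hκ0 : κ w ≠ 0) (M : ℕ)
    (hd : ∀ᶠ n in (𝒰 : Filter ℕ), DifferentiableOn ℂ (F n) (ball w r)) (hc : CC 𝒰 F (fun z => (z - w) ^ M * κ z) (ball w r))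
    {s : ℝ} (hs : 0 < s) : ∀ᶠ n in (𝒰 : Filter ℕ), Zer (F n) (ball w r) (ball w s) M := by
  obtain ⟨a, q, ha, hq, he, _⟩ := weier hr hκ hκ0 M hd hc
  have h1 : ∀ᶠ n in (𝒰 : Filter ℕ), ∀ i ∈ Finset.range M, a i n ∈ ball w s := by
    rw [Filter.eventually_all_finset]
    intro i _
    exact (ha i).eventually (ball_mem_nhds w hs)
  filter_upwards [h1, hq, he] with n h2 h3 h4
  refine ⟨(Finset.range M).val.map fun i => a i n, by simp, fun b hb => ?_, q n, h3, fun z _ => ?_⟩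
  · obtain ⟨i, hi, rfl⟩ := Multiset.mem_map.mp hb
    exact h2 i hi
  · rw [h4 z, mp, Multiset.map_map]
    rfl

/-- Hurwitz, upper bound -/
theorem le_of_zer_cc {w : ℂ} {r : ℝ} {κ : ℂ → ℂ} (hκ : DifferentiableOn ℂ κ (ball w r)) {M : ℕ}
    (hd : ∀ᶠ n in (𝒰 : Filter ℕ), DifferentiableOn ℂ (F n) (ball w r)) (hc : CC 𝒰 F (fun z => (z - w) ^ M * κ z) (ball w r))
    {s : ℝ} (hs : 0 < s) (hsr : s < r) (hκ0 : ∀ z ∈ closedBall w s, κ z ≠ 0) :
    ∀ᶠ n in (𝒰 : Filter ℕ), ∀ k : ℕ, Zer (F n) (ball w r) (ball w s) k → k ≤ M := by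
  have hr : 0 < r := hs.trans hsr
  have hsub : closedBall w s ⊆ ball w r := closedBall_subset_ball hsr
  have hlim : DifferentiableOn ℂ (fun z => (z - w) ^ M * κ z) (ball w r) := DifferentiableOn.mul (by fun_prop) hκ
  have hne : ∀ z ∈ sphere w s, (z - w) ^ M * κ z ≠ 0 := by
    intro z hz
    refine mul_ne_zero (pow_ne_zero _ fun h => ?_) (hκ0 z (sphere_subset_closedBall hz))
    rw [mem_sphere_iff_norm, h, norm_zero] at hz
    exact hs.ne hz
  have hw : wn (fun z => (z - w) ^ M * κ z) w s = ((M : ℤ) : ℂ) := by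
    have h6 := wn_mp_mul (f := fun z => (z - w) ^ M * κ z) (s := Multiset.replicate M w) hs isOpen_ball hsub hκ
      (fun z _ => by rw [mp_replicate]) hne
    rw [h6, wn_of_ne hs (fun z hz => (hκ.analyticOnNhd isOpen_ball) z (hsub hz)) hκ0, add_zero, Multiset.filter_eq_self.mpr]
    · simp
    · intro b hb
      rw [Multiset.eq_of_mem_replicate hb, sub_self, norm_zero]
      exact hs
  have htlu := tlu_of_cc hc hlim.continuousOn isOpen_ball
  have hnes : ∀ᶠ n in (𝒰 : Filter ℕ), ∀ z ∈ sphere w s, F n z ≠ 0 := by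
    refine Pool.Agent.H74.NB.unif_of_seq (isCompact_sphere w s) fun z₀ hz₀ z _ hz => ?_
    exact ((hc z₀ (hsub (sphere_subset_closedBall hz₀)) z hz).eventually_ne (hne z₀ hz₀)).frequently
  have hint : ∀ᶠ n in (𝒰 : Filter ℕ), ∃ j : ℤ, wn (F n) w s = j := by
    filter_upwards [hd, hnes] with n h1 h2
    obtain ⟨j, hj⟩ := wn_nat_on hs isOpen_ball hsub h1 h2
    exact ⟨j, by rw [hj]; simp⟩
  filter_upwards [wn_eventually_eq hs isOpen_ball (sphere_subset_closedBall.trans hsub) hd htlu hne hw hint, hnes] with n h1 h2 k hk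
  obtain ⟨j, hj1, hj2⟩ := hk.exists_wn hs isOpen_ball hsub h2
  rw [h1] at hj2
  have : (M : ℤ) = j := by exact_mod_cast hj2
  omega

end Pool.Agent.H4.NB
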