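import Mathlib

/-!
# NB Wn: zeros of entire functions in discs, winding numbers

`wn f c r` is the winding number of `f` on the circle.  For an entire function it is the number of zeros in the disc (`Dec f c r s e`: `s` is
the multiset of the zeros).  `wn_tendsto`: stability (Hurwitz with multiplicities).
-/

set_option autoImplicit false

open Topology Filter Metric Complex

noncomputable section

namespace Pool.Agent.H4.NB

/-- the winding number -/
def wn (f : ℂ → ℂ) (c : ℂ) (r : ℝ) : ℂ := (2 * Real.pi * I)⁻¹ * ∮ z in C(c, r), deriv f z / f z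

/-- `f = prod (z - a) * e`, the product over the multiset `s` of points of the closed disc, `e` without zeros in the closed disc -/
structure Dec (f : ℂ → ℂ) (c : ℂ) (r : ℝ) (s : Multiset ℂ) (e : ℂ → ℂ) : Prop where
  diff : Differentiable ℂ e
  ne : ∀ z ∈ closedBall c r, e z ≠ 0
  mem : ∀ a ∈ s, a ∈ closedBall c r
  eq : ∀ z, f z = (s.map (fun a => z - a)).prod * e z

/-- division by `z - a` -/
theorem exists_div {f : ℂ → ℂ} (hf : Differentiable ℂ f) {a : ℂ} (ha : f a = 0) :
    ∃ g : ℂ → ℂ, Differentiable ℂ g ∧ ∀ z, f z = (z - a) * g z := by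
  refine ⟨dslope f a, ?_, ?_⟩
  · intro z
    have h1 : DifferentiableOn ℂ (dslope f a) Set.univ :=
      (Complex.differentiableOn_dslope Filter.univ_mem).mpr hf.differentiableOn
    exact (h1 z (Set.mem_univ z)).differentiableAt Filter.univ_mem
  · intro z
    have h2 := sub_smul_dslope f a z
    rw [ha, sub_zero, smul_eq_mul] at h2
    exact h2.symm

private lemma prod_le {s : Multiset ℂ} {z : ℂ} {b : ℝ} (hb : 0 ≤ b) (h : ∀ a ∈ s, ‖z - a‖ ≤ b) :
    ‖(s.map (fun a => z - a)).prod‖ ≤ b ^ s.card := by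
  induction s using Multiset.induction_on with
  | empty => simp
  | cons a s ih =>
    rw [Multiset.map_cons, Multiset.prod_cons, norm_mul, Multiset.card_cons, pow_succ']
    exact mul_le_mul (h a (Multiset.mem_cons_self a s)) (ih fun x hx => h x (Multiset.mem_cons_of_mem hx)) (norm_nonneg _) hb

private lemma le_prod {s : Multiset ℂ} {z : ℂ} {b : ℝ} (hb : 0 ≤ b) (h : ∀ a ∈ s, b ≤ ‖z - a‖) :
    b ^ s.card ≤ ‖(s.map (fun a => z - a)).prod‖ := by
  induction s using Multiset.induction_on with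
  | empty => simp
  | cons a s ih =>
    rw [Multiset.map_cons, Multiset.prod_cons, norm_mul, Multiset.card_cons, pow_succ']
    exact mul_le_mul (h a (Multiset.mem_cons_self a s)) (ih fun x hx => h x (Multiset.mem_cons_of_mem hx)) (pow_nonneg hb _) (norm_nonneg _)

/-- the number of zeros is bounded -/
private lemma card_bound {f : ℂ → ℂ} (hf : Differentiable ℂ f) {w : ℂ} (hw : f w ≠ 0) (c : ℂ) (r : ℝ) :
    ∃ K : ℕ, ∀ (s : Multiset ℂ) (e : ℂ → ℂ), Differentiable ℂ e → (∀ a ∈ s, a ∈ closedBall c r) →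
      (∀ z, f z = (s.map (fun a => z - a)).prod * e z) → s.card ≤ K := by
  set R : ℝ := max (max r ‖w - c‖) 1 with hR
  have hR1 : 1 ≤ R := le_max_right _ _
  have hRr : r ≤ R := (le_max_left _ _).trans (le_max_left _ _)
  have hRw : ‖w - c‖ ≤ R := (le_max_right _ _).trans (le_max_left _ _)
  obtain ⟨M, hM⟩ := (isCompact_sphere c (4 * R)).exists_bound_of_continuousOn hf.continuous.continuousOn
  have hM0 : 0 ≤ M := by
    have : (c + (4 * R : ℝ)) ∈ sphere c (4 * R) := by simp [abs_of_nonneg (by positivity : (0 : ℝ) ≤ R)]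
    exact (norm_nonneg _).trans (hM _ this)
  obtain ⟨K, hK⟩ := exists_pow_lt_of_lt_one (show 0 < ‖f w‖ / (M + 1) by positivity) (show (2 / 3 : ℝ) < 1 by norm_num)
  refine ⟨K, fun s e he hs hfe => ?_⟩
  by_contra hlt
  push Not at hlt
  have h1 : ∀ z ∈ sphere c (4 * R), ‖e z‖ ≤ M / (3 * R) ^ s.card := by
    intro z hz
    rw [mem_sphere_iff_norm] at hz
    have h2 : (3 * R) ^ s.card ≤ ‖(s.map (fun a => z - a)).prod‖ := by
      refine le_prod (by positivity) fun a ha => ?_
      have h3 := hs a ha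
      rw [mem_closedBall_iff_norm] at h3
      have h4 : ‖z - c‖ ≤ ‖z - a‖ + ‖a - c‖ := by
        have := norm_add_le (z - a) (a - c)
        simpa using this
      linarith
    have h5 := hM z (by rw [mem_sphere_iff_norm]; exact hz)
    rw [hfe z, norm_mul] at h5
    have h6 : (0 : ℝ) < (3 * R) ^ s.card := by positivity
    rw [le_div_iff₀ h6]
    calc ‖e z‖ * (3 * R) ^ s.card ≤ ‖e z‖ * ‖(s.map (fun a => z - a)).prod‖ := by gcongr
      _ ≤ M := by rw [mul_comm]; exact h5
  have h7 : ‖e w‖ ≤ M / (3 * R) ^ s.card := by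
    refine Complex.norm_le_of_forall_mem_frontier_norm_le (isBounded_ball (x := c) (r := 4 * R)) (f := e)
      he.diffContOnCl (fun z hz => ?_) (subset_closure ?_)
    · refine h1 z ?_
      rwa [frontier_ball c (by positivity : 4 * R ≠ 0)] at hz
    · rw [mem_ball_iff_norm]
      linarith
  have h8 : ‖f w‖ ≤ (2 * R) ^ s.card * (M / (3 * R) ^ s.card) := by
    rw [hfe w, norm_mul]
    refine mul_le_mul (prod_le (by positivity) fun a ha => ?_) h7 (norm_nonneg _) (by positivity)
    have h3 := hs a ha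
    rw [mem_closedBall_iff_norm] at h3
    have h4 : ‖w - a‖ ≤ ‖w - c‖ + ‖c - a‖ := by
      have := norm_add_le (w - c) (c - a)
      simpa using this
    rw [norm_sub_rev c a] at h4
    linarith
  have h9 : (2 * R) ^ s.card * (M / (3 * R) ^ s.card) = M * (2 / 3) ^ s.card := by
    rw [mul_pow, mul_pow, div_pow]
    have : R ^ s.card ≠ 0 := by positivity
    field_simp
  have h10 : (2 / 3 : ℝ) ^ s.card ≤ (2 / 3) ^ K := pow_le_pow_of_le_one (by norm_num) (by norm_num) hlt.le
  have h11 : ‖f w‖ ≤ M * (2 / 3) ^ K := by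
    rw [h9] at h8
    exact h8.trans (mul_le_mul_of_nonneg_left h10 hM0)
  rw [lt_div_iff₀ (by positivity)] at hK
  have h12 : (0 : ℝ) < (2 / 3) ^ K := by positivity
  nlinarith

/-- existence of the decomposition -/
theorem exists_dec {f : ℂ → ℂ} (hf : Differentiable ℂ f) (h0 : ∃ z, f z ≠ 0) (c : ℂ) (r : ℝ) :
    ∃ (s : Multiset ℂ) (e : ℂ → ℂ), Dec f c r s e := by
  obtain ⟨w, hw⟩ := h0
  obtain ⟨K, hK⟩ := card_bound hf hw c r
  by_contra hno
  push Not at hno
  have key : ∀ k : ℕ, ∃ (s : Multiset ℂ) (e : ℂ → ℂ), s.card = k ∧ Differentiable ℂ e ∧ (∀ a ∈ s, a ∈ closedBall c r) ∧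
      ∀ z, f z = (s.map (fun a => z - a)).prod * e z := by
    intro k
    induction k with
    | zero => exact ⟨0, f, rfl, hf, by simp, by simp⟩
    | succ k ih =>
      obtain ⟨s, e, h1, h2, h3, h4⟩ := ih
      have h5 : ∃ a ∈ closedBall c r, e a = 0 := by
        by_contra h6
        push Not at h6
        exact hno s e ⟨h2, h6, h3, h4⟩
      obtain ⟨a, ha, ha0⟩ := h5
      obtain ⟨g, hg, hge⟩ := exists_div h2 ha0
      refine ⟨a ::ₘ s, g, by simp [h1], hg, ?_, ?_⟩
      · intro x hx
        rcases Multiset.mem_cons.mp hx with rfl | hx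
        · exact ha
        · exact h3 x hx
      · intro z
        rw [h4 z, hge z, Multiset.map_cons, Multiset.prod_cons]
        ring
  obtain ⟨s, e, h1, h2, h3, h4⟩ := key (K + 1)
  have := hK s e h2 h3 h4
  omega

/-! ## winding numbers -/

theorem wn_mul {f g : ℂ → ℂ} {c : ℂ} {r : ℝ} (hr : 0 < r) (hf : AnalyticOnNhd ℂ f (sphere c r)) (hg : AnalyticOnNhd ℂ g (sphere c r))
    (hf0 : ∀ z ∈ sphere c r, f z ≠ 0) (hg0 : ∀ z ∈ sphere c r, g z ≠ 0) : wn (fun z => f z * g z) c r = wn f c r + wn g c r := by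
  have h1 : ∀ z ∈ sphere c r, deriv (fun z => f z * g z) z / (f z * g z) = deriv f z / f z + deriv g z / g z := by
    intro z hz
    have h2 : deriv (fun z => f z * g z) z = deriv f z * g z + f z * deriv g z :=
      deriv_fun_mul (hf z hz).differentiableAt (hg z hz).differentiableAt
    rw [h2]
    have := hf0 z hz
    have := hg0 z hz
    field_simp
  have hci : ∀ {h : ℂ → ℂ}, AnalyticOnNhd ℂ h (sphere c r) → (∀ z ∈ sphere c r, h z ≠ 0) →
      CircleIntegrable (fun z => deriv h z / h z) c r := by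
    intro h hh hh0
    refine ContinuousOn.circleIntegrable hr.le ?_
    exact ContinuousOn.div (fun z hz => (hh z hz).deriv.continuousAt.continuousWithinAt) (fun z hz => (hh z hz).continuousAt.continuousWithinAt) hh0
  unfold wn
  rw [← mul_add, ← circleIntegral.integral_add (hci hf hf0) (hci hg hg0)]
  congr 1
  exact circleIntegral.integral_congr hr.le h1

theorem wn_const (a c : ℂ) (r : ℝ) : wn (fun _ => a) c r = 0 := by
  simp [wn, circleIntegral]

theorem wn_of_ne {f : ℂ → ℂ} {c : ℂ} {r : ℝ} (hr : 0 < r) (hf : AnalyticOnNhd ℂ f (closedBall c r)) (h0 : ∀ z ∈ closedBall c r, f z ≠ 0) :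
    wn f c r = 0 := by
  unfold wn
  rw [mul_eq_zero]
  right
  refine circleIntegral_eq_zero_of_differentiable_on_off_countable hr.le Set.countable_empty ?_ ?_
  · exact ContinuousOn.div (fun z hz => (hf z hz).deriv.continuousAt.continuousWithinAt) (fun z hz => (hf z hz).continuousAt.continuousWithinAt) h0
  · intro z hz
    have hz' : z ∈ closedBall c r := ball_subset_closedBall hz.1
    exact (hf z hz').deriv.differentiableAt.div (hf z hz').differentiableAt (h0 z hz')

theorem wn_sub {a c : ℂ} {r : ℝ} (ha : a ∈ ball c r) : wn (fun z => z - a) c r = 1 := by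
  unfold wn
  have h1 : (∮ z in C(c, r), deriv (fun z => z - a) z / (z - a)) = ∮ z in C(c, r), (z - a)⁻¹ := by
    congr 1
    ext z
    rw [deriv_sub_const, deriv_id'', one_div]
  rw [h1, circleIntegral.integral_sub_inv_of_mem_ball ha]
  exact inv_mul_cancel₀ (by simp [Real.pi_ne_zero])

private lemma an_prod (s : Multiset ℂ) : Differentiable ℂ (fun z : ℂ => (s.map (fun a => z - a)).prod) := by
  induction s using Multiset.induction_on with
  | empty => simp
  | cons a s ih =>
    simp only [Multiset.map_cons, Multiset.prod_cons]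
    exact (differentiable_id.sub_const a).mul ih

theorem wn_prod {s : Multiset ℂ} {c : ℂ} {r : ℝ} (hr : 0 < r) (hs : ∀ a ∈ s, a ∉ sphere c r) :
    wn (fun z => (s.map (fun a => z - a)).prod) c r = ((s.filter (fun a => ‖a - c‖ < r)).card : ℂ) := by
  induction s using Multiset.induction_on with
  | empty => simp [wn_const]
  | cons a s ih =>
    have h1 := ih fun x hx => hs x (Multiset.mem_cons_of_mem hx)
    have ha := hs a (Multiset.mem_cons_self a s)
    have h2 : wn (fun z => ((a ::ₘ s).map (fun a => z - a)).prod) c r = wn (fun z => z - a) c r +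
        wn (fun z => (s.map (fun a => z - a)).prod) c r := by
      simp only [Multiset.map_cons, Multiset.prod_cons]
      refine wn_mul hr (fun z _ => (differentiable_id.sub_const a).analyticAt z) (fun z _ => (an_prod s).analyticAt z) ?_ ?_
      · intro z hz h
        rw [sub_eq_zero] at h
        exact ha (h ▸ hz)
      · intro z hz h
        rw [Multiset.prod_eq_zero_iff, Multiset.mem_map] at h
        obtain ⟨b, hb, hb0⟩ := h
        rw [sub_eq_zero] at hb0
        exact hs b (Multiset.mem_cons_of_mem hb) (hb0 ▸ hz)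
    rw [h2, h1]
    by_cases h3 : ‖a - c‖ < r
    · rw [Multiset.filter_cons_of_pos (p := fun a => ‖a - c‖ < r) _ h3, wn_sub (by rwa [mem_ball_iff_norm])]
      push_cast [Multiset.card_cons]
      ring
    · rw [Multiset.filter_cons_of_neg (p := fun a => ‖a - c‖ < r) _ h3, wn_of_ne (f := fun z => z - a) hr (fun z _ => (differentiable_id.sub_const a).analyticAt z) ?_, zero_add]
      intro z hz h
      rw [sub_eq_zero] at h
      subst h
      rw [mem_closedBall_iff_norm] at hz
      exact ha (by rw [mem_sphere_iff_norm]; exact le_antisymm hz (not_lt.mp h3))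

/-- the number of zeros is the winding number -/
theorem Dec.wn {f : ℂ → ℂ} {c : ℂ} {r : ℝ} {s : Multiset ℂ} {e : ℂ → ℂ} (h : Dec f c r s e) {b : ℂ} {t : ℝ} (ht : 0 < t)
    (hbt : closedBall b t ⊆ closedBall c r) (h0 : ∀ z ∈ sphere b t, f z ≠ 0) :
    Pool.Agent.H4.NB.wn f b t = ((s.filter (fun a => ‖a - b‖ < t)).card : ℂ) := by
  have hf : f = fun z => (s.map (fun a => z - a)).prod * e z := funext h.eq
  have h1 : ∀ a ∈ s, a ∉ sphere b t := by
    intro a ha hab
    refine h0 a hab ?_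
    rw [h.eq, mul_eq_zero]
    left
    rw [Multiset.prod_eq_zero_iff, Multiset.mem_map]
    exact ⟨a, ha, sub_self a⟩
  have h2 : ∀ z ∈ sphere b t, (s.map (fun a => z - a)).prod ≠ 0 := by
    intro z hz h3
    refine h0 z hz ?_
    rw [h.eq, h3, zero_mul]
  rw [hf, wn_mul ht (fun z _ => (an_prod s).analyticAt z) (fun z _ => h.diff.analyticAt z) h2
    (fun z hz => h.ne z (hbt (sphere_subset_closedBall hz))), wn_prod ht h1,
    wn_of_ne ht (fun z _ => h.diff.analyticAt z) (fun z hz => h.ne z (hbt hz)), add_zero]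

/-- the winding number of an entire function is a natural number, monotone in the disc -/
theorem exists_wn_nat {f : ℂ → ℂ} (hf : Differentiable ℂ f) {c : ℂ} {r : ℝ} (hr : 0 < r) (h0 : ∀ z ∈ sphere c r, f z ≠ 0) :
    ∃ k : ℕ, wn f c r = k := by
  obtain ⟨s, e, h⟩ := exists_dec hf ⟨c + r, h0 _ (by simp [abs_of_pos hr])⟩ c r
  exact ⟨_, h.wn hr subset_rfl h0⟩

theorem wn_mono {f : ℂ → ℂ} (hf : Differentiable ℂ f) {c b : ℂ} {r t : ℝ} (hr : 0 < r) (ht : 0 < t) (hbt : closedBall b t ⊆ ball c r)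
    (h0 : ∀ z ∈ sphere c r, f z ≠ 0) (h1 : ∀ z ∈ sphere b t, f z ≠ 0) : ∃ k : ℕ, wn f c r = wn f b t + k := by
  obtain ⟨s, e, h⟩ := exists_dec hf ⟨c + r, h0 _ (by simp [abs_of_pos hr])⟩ c r
  rw [h.wn hr subset_rfl h0, h.wn ht (hbt.trans ball_subset_closedBall) h1]
  have h2 : s.filter (fun a => ‖a - b‖ < t) ≤ s.filter (fun a => ‖a - c‖ < r) := by
    refine Multiset.monotone_filter_right s fun a ha => ?_
    have := hbt (show a ∈ closedBall b t by rw [mem_closedBall_iff_norm]; exact ha.le)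
    rwa [mem_ball_iff_norm] at this
  have h3 := Multiset.card_le_card h2
  exact ⟨(s.filter (fun a => ‖a - c‖ < r)).card - (s.filter (fun a => ‖a - b‖ < t)).card, by rw [Nat.cast_sub h3]; ring⟩

/-- no zeros in the annulus: the same winding number -/
theorem wn_eq {f : ℂ → ℂ} (hf : Differentiable ℂ f) {c b : ℂ} {r t : ℝ} (hr : 0 < r) (ht : 0 < t) (hbt : closedBall b t ⊆ ball c r)
    (h0 : ∀ z ∈ closedBall c r, z ∉ ball b t → f z ≠ 0) : wn f c r = wn f b t := by
  have h0' : ∀ z ∈ sphere c r, f z ≠ 0 := fun z hz => h0 z (sphere_subset_closedBall hz) fun hz' => by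
    have h1 := hbt (ball_subset_closedBall hz')
    rw [mem_ball_iff_norm] at h1
    rw [mem_sphere_iff_norm] at hz
    exact absurd hz h1.ne
  have h1 : ∀ z ∈ sphere b t, f z ≠ 0 := fun z hz => h0 z (ball_subset_closedBall (hbt (sphere_subset_closedBall hz))) fun hz' => by
    rw [mem_ball_iff_norm] at hz'
    rw [mem_sphere_iff_norm] at hz
    exact absurd hz hz'.ne
  obtain ⟨s, e, h⟩ := exists_dec hf ⟨c + r, h0' _ (by simp [abs_of_pos hr])⟩ c r
  rw [h.wn hr subset_rfl h0', h.wn ht (hbt.trans ball_subset_closedBall) h1]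
  congr 2
  refine Multiset.filter_congr fun a ha => ?_
  constructor
  · intro _
    by_contra h3
    refine h0 a (h.mem a ha) (by rwa [mem_ball_iff_norm]) ?_
    rw [h.eq, mul_eq_zero]
    left
    rw [Multiset.prod_eq_zero_iff, Multiset.mem_map]
    exact ⟨a, ha, sub_self a⟩
  · intro h3
    have := hbt (show a ∈ closedBall b t by rw [mem_closedBall_iff_norm]; exact h3.le)
    rwa [mem_ball_iff_norm] at this

/-- stability -/
theorem wn_tendsto {α : Type*} {l : Filter α} {f : α → ℂ → ℂ} {g : ℂ → ℂ} {c : ℂ} {r : ℝ} (hr : 0 < r) {U : Set ℂ} (hU : IsOpen U)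
    (hUs : sphere c r ⊆ U) (hf : ∀ᶠ n in l, DifferentiableOn ℂ (f n) U) (hg : TendstoLocallyUniformlyOn f g l U)
    (h0 : ∀ z ∈ sphere c r, g z ≠ 0) : Tendsto (fun n => wn (f n) c r) l (𝓝 (wn g c r)) := by
  rcases l.eq_or_neBot with rfl | hl
  · exact tendsto_bot
  have hgd : DifferentiableOn ℂ g U := hg.differentiableOn hf hU
  have hd : TendstoLocallyUniformlyOn (deriv ∘ f) (deriv g) l U := hg.deriv hf hU
  have hgc : ContinuousOn g (sphere c r) := (hgd.mono hUs).continuousOn
  have hg1 : ContinuousOn (deriv g) (sphere c r) := ((hgd.deriv hU).mono hUs).continuousOn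
  obtain ⟨m, hm, hmg⟩ : ∃ m : ℝ, 0 < m ∧ ∀ z ∈ sphere c r, m ≤ ‖g z‖ := by
    obtain ⟨z₀, hz₀, hmin⟩ := (isCompact_sphere c r).exists_isMinOn ((NormedSpace.sphere_nonempty).mpr hr.le) hgc.norm
    exact ⟨‖g z₀‖, norm_pos_iff.mpr (h0 z₀ hz₀), fun z hz => hmin hz⟩
  obtain ⟨A, hA⟩ := (isCompact_sphere c r).exists_bound_of_continuousOn hg1
  obtain ⟨B, hB⟩ := (isCompact_sphere c r).exists_bound_of_continuousOn hgc
  have hA0 : 0 ≤ A := (norm_nonneg _).trans (hA (c + r) (by simp [abs_of_pos hr]))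
  have hB0 : 0 ≤ B := (norm_nonneg _).trans (hB (c + r) (by simp [abs_of_pos hr]))
  have hK : IsCompact (sphere c r) := isCompact_sphere c r
  have hu1 := (tendstoLocallyUniformlyOn_iff_tendstoUniformlyOn_of_compact hK).mp (hg.mono hUs)
  have hu2 := (tendstoLocallyUniformlyOn_iff_tendstoUniformlyOn_of_compact hK).mp (hd.mono hUs)
  rw [Metric.tendstoUniformlyOn_iff] at hu1 hu2
  rw [Metric.tendsto_nhds]
  intro ε hε
  -- choose the accuracy
  set K : ℝ := (A + B + 1) * (2 / m ^ 2) * r + 1 with hKdef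
  have hKpos : 0 < K := by positivity
  have hδ : 0 < min (m / 2) (ε / K) := by positivity
  filter_upwards [hu1 _ hδ, hu2 _ hδ, hf] with n h1 h2 hfn
  set δ := min (m / 2) (ε / K) with hδd
  have hδm : δ ≤ m / 2 := min_le_left _ _
  have hδε : δ ≤ ε / K := min_le_right _ _
  have hb : ∀ z ∈ sphere c r, ‖deriv (f n) z / f n z - deriv g z / g z‖ ≤ (A + B + 1) * (2 / m ^ 2) * δ := by
    intro z hz
    have e1 : ‖g z - f n z‖ < δ := by have := h1 z hz; rwa [dist_eq_norm] at this
    have e2 : ‖deriv g z - deriv (f n) z‖ < δ := by have := h2 z hz; rwa [dist_eq_norm] at this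
    have e3 : m ≤ ‖g z‖ := hmg z hz
    have e4 : m / 2 ≤ ‖f n z‖ := by
      have := norm_sub_norm_le (g z) (f n z)
      linarith
    have e5 : f n z ≠ 0 := norm_pos_iff.mp (by linarith)
    have e6 : g z ≠ 0 := h0 z hz
    have e7 : deriv (f n) z / f n z - deriv g z / g z = ((deriv (f n) z - deriv g z) * g z + deriv g z * (g z - f n z)) / (f n z * g z) := by
      field_simp
      ring
    rw [e7, norm_div, norm_mul]
    have e8 : m / 2 * m ≤ ‖f n z‖ * ‖g z‖ := mul_le_mul e4 e3 hm.le (norm_nonneg _)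
    have e9 : ‖(deriv (f n) z - deriv g z) * g z + deriv g z * (g z - f n z)‖ ≤ δ * B + A * δ := by
      refine (norm_add_le _ _).trans ?_
      rw [norm_mul, norm_mul, norm_sub_rev (deriv (f n) z)]
      exact add_le_add (mul_le_mul e2.le (hB z hz) (norm_nonneg _) hδ.le) (mul_le_mul (hA z hz) e1.le (norm_nonneg _) hA0)
    rw [div_le_iff₀ (by positivity)]
    have e10 : (A + B + 1) * (2 / m ^ 2) * δ * (m / 2 * m) = (A + B + 1) * δ := by
      field_simp
    calc ‖(deriv (f n) z - deriv g z) * g z + deriv g z * (g z - f n z)‖ ≤ δ * B + A * δ := e9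
      _ ≤ (A + B + 1) * δ := by nlinarith
      _ = (A + B + 1) * (2 / m ^ 2) * δ * (m / 2 * m) := e10.symm
      _ ≤ (A + B + 1) * (2 / m ^ 2) * δ * (‖f n z‖ * ‖g z‖) := by gcongr
  have hfc : ∀ z ∈ sphere c r, f n z ≠ 0 := by
    intro z hz
    have e1 : ‖g z - f n z‖ < δ := by have := h1 z hz; rwa [dist_eq_norm] at this
    have e3 : m ≤ ‖g z‖ := hmg z hz
    have := norm_sub_norm_le (g z) (f n z)
    exact norm_pos_iff.mp (by linarith)
  have hci1 : CircleIntegrable (fun z => deriv (f n) z / f n z) c r := by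
    refine ContinuousOn.circleIntegrable hr.le (ContinuousOn.div ?_ ?_ hfc)
    · exact ((hfn.deriv hU).mono hUs).continuousOn
    · exact (hfn.mono hUs).continuousOn
  have hci2 : CircleIntegrable (fun z => deriv g z / g z) c r :=
    ContinuousOn.circleIntegrable hr.le (ContinuousOn.div hg1 hgc h0)
  rw [dist_eq_norm]
  unfold wn
  rw [← mul_sub, ← circleIntegral.integral_sub hci1 hci2]
  have h3 := circleIntegral.norm_two_pi_i_inv_smul_integral_le_of_norm_le_const hr.le hb
  rw [smul_eq_mul] at h3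
  refine lt_of_le_of_lt h3 ?_
  calc r * ((A + B + 1) * (2 / m ^ 2) * δ) = ((A + B + 1) * (2 / m ^ 2) * r) * δ := by ring
    _ < K * δ := mul_lt_mul_of_pos_right (by rw [hKdef]; linarith) hδ
    _ ≤ K * (ε / K) := by gcongr
    _ = ε := by field_simp

/-- stability for integers -/
theorem wn_eventually_eq {α : Type*} {l : Filter α} {f : α → ℂ → ℂ} {g : ℂ → ℂ} {c : ℂ} {r : ℝ} (hr : 0 < r) {U : Set ℂ} (hU : IsOpen U)
    (hUs : sphere c r ⊆ U) (hf : ∀ᶠ n in l, DifferentiableOn ℂ (f n) U) (hg : TendstoLocallyUniformlyOn f g l U)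
    (h0 : ∀ z ∈ sphere c r, g z ≠ 0) {k : ℤ} (hk : wn g c r = k) (hi : ∀ᶠ n in l, ∃ j : ℤ, wn (f n) c r = j) :
    ∀ᶠ n in l, wn (f n) c r = k := by
  have h1 := wn_tendsto hr hU hUs hf hg h0
  rw [Metric.tendsto_nhds] at h1
  filter_upwards [h1 1 one_pos, hi] with n h2 h3
  obtain ⟨j, hj⟩ := h3
  rw [hj, hk, dist_eq_norm, ← Int.cast_sub, Complex.norm_intCast] at h2
  have h4 : |j - k| < 1 := by exact_mod_cast h2
  have h5 : j = k := by
    have := Int.abs_lt_one_iff.mp h4
    omega
  rw [hj, h5]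

end Pool.Agent.H4.NB
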